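import Pool.Agent.H76.CHN.EndB
import Pool.Agent.H68.OWN.Uv

/-!
# The side of the chain

`dfew`: a datum which is few bits given the closed record and the fine position, and few bits given
a finer record for which the fine position is full, is few bits given the closed record and the
coarse position. `line_step`: one line. `sd_of`: the side of the chain of four lines is few bits
given the data of the lines, the first record and the coarse times.
-/

set_option autoImplicit false

namespace Pool.STS37

open Finset Real MvPolynomial
open Pool.Agent.H49.Ent Pool.Agent.H32.Dense Pool.STK Pool.MIC Pool.STB Pool.CHN76 Pool.OWN68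
open Pool.BFL (Pb)

section shannon

variable {Ω S T U V W : Type} [Fintype Ω] {p : Ω → ℝ}

/-- **A datum does not see the fine position.** `A`: the datum; `Y`: the coarse context; `P`: the
fine position; `R`: the finer record. -/
theorem dfew (h0 : ∀ ω, 0 ≤ p ω) (A : Ω → S) (Y : Ω → T) (P : Ω → U) (R : Ω → V)
    (hR : Det p R Y) {F a b c : ℝ}
    (ha : CH p A (fun ω => (P ω, Y ω)) ≤ a) (hb : CH p A R ≤ b)
    (hF : CH p P Y ≤ F) (hc : F - c ≤ CH p P R) :
    CH p A Y ≤ a + b + c := by
  have c1 := CH_chain h0 P A Y
  have c2 := CH_chain h0 A P Y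
  have c3 := CH_swap2 h0 A P Y
  have c4 := CH_chain h0 P A R
  have c5 := CH_chain h0 A P R
  have c6 := CH_swap2 h0 A P R
  have c7 : CH p P (fun ω => (A ω, R ω)) ≤ CH p P (fun ω => (A ω, Y ω)) :=
    CH_mono_cond h0 fun ω ω' h h' hh => by
      simp only [Prod.mk.injEq] at hh ⊢
      exact ⟨hh.1, hR ω ω' h h' hh.2⟩
  have c8 := CH_nonneg h0 A (fun ω => (P ω, R ω))
  linarith

end shannon

end Pool.STS37
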